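import Pool.Agent.H57.TG.TGDefs

/-!
GPB (half planes of disjoint arcs are disjoint).  All points `p, q, p', q'` on the unit circle, so `conj q = q⁻¹`,
`1 - p conj q = conj q (q - p)`, `eta p q x = I conj q (q - p)(x - q)/(p - x)`, and for two points of the circle
`(s - t)² = - |s - t|² s t`  (divide by `s t`: `s/t - 2 + t/s = 2 re (s conj t) - 2`).  Put `w = eta p q x`, `P' = eta p q p'`, `Q' = eta p q q'`.
`eta_change`: by `eta_sub` with `A = I (1 - p conj q)(p - q)`: `P' - Q' = A (p'-q')/((p-p')(p-q'))`, `w - Q' = A (x-q')/((p-x)(p-q'))`,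
`P' - w = A (p'-x)/((p-p')(p-x))`, so `(P'-Q')(w-Q')/(P'-w) = A (p'-q')(x-q')/((p'-x)(p-q')²)`, and
`A (p'-q')/((p-q')² I conj q' (q'-p')) = conj q q' (q-p)²/(p-q')² = |q-p|²/|p-q'|²`.  (`x = p'`: both sides `0`.)
`eta_change'`: `1/(P'-w) = (p-p')(p-x)/(A (p'-x))`, `eta p' p x = I conj p (p-p')(x-p)/(p'-x)`, and `- I conj p A = - conj p conj q (q-p)² = |q-p|²`.
`eta_swap`: `eta p q q' * eta p q' q = conj q conj q' (q-q')² = - |q-q'|²`.
`eta_diff`: `eta p' q' p * (P' - Q') = - |p-q|² |p'-q'|²/|p-p'|²` (`A = I p |p-q|²`).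

`half_disj`: on the circle `eta` is real (`eta_im`), so `x ∉ Arc p q`, `‖x‖ = 1` means `(eta p q x).re ≤ 0`.
Case `p' = p`: if `q' ≠ q` then `eta_swap` says that one of `(eta p q q').re`, `(eta p q' q).re` is positive: contradiction to `h2`, `h4`.
Case `p' ≠ p`, `q' = p`: `P' ≤ 0` (`h1`), `0 < re w`: `re (P' - w) < 0`, so `re (1/(P'-w)) < 0` and by `eta_change'` `(eta p' p x).re < 0`.
Case `p' ≠ p`, `q' ≠ p`: `P', Q' ≤ 0` (`h1`, `h2`), `(eta p' q' p).re ≤ 0` (`h3`), so by `eta_diff` `P' - Q' > 0`.  By `eta_change` `(eta p' q' x).re` has the sign of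
`re ((w-Q')/(P'-w)) = - (|w|² - (P'+Q') re w + P' Q')/|P'-w|² < 0`.
-/

namespace TN

open Metric Set Filter Topology DS

private theorem GPB_ne {s : ℂ} (hs : ‖s‖ = 1) : s ≠ 0 := by
  rintro rfl
  simp at hs

private theorem GPB_nsq {s t : ℂ} (hs : ‖s‖ = 1) (ht : ‖t‖ = 1) :
    ((‖s - t‖ ^ 2 : ℝ) : ℂ) = (s - t) * (s⁻¹ - t⁻¹) := by
  rw [Complex.inv_eq_conj hs, Complex.inv_eq_conj ht, ← map_sub, Complex.mul_conj,
    Complex.normSq_eq_norm_sq]

private theorem GPB_eta {p q x : ℂ} (hq : ‖q‖ = 1) :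
    eta p q x = Complex.I * ((q - p) * q⁻¹) * (x - q) / (p - x) := by
  have h0 := GPB_ne hq
  rw [eta, ← Complex.inv_eq_conj hq, sub_mul, mul_inv_cancel₀ h0]

private theorem GPB_sub {p q x y : ℂ} (hq : ‖q‖ = 1) (hx : x ≠ p) (hy : y ≠ p) :
    eta p q x - eta p q y =
      Complex.I * ((q - p) * q⁻¹) * (p - q) * (x - y) / ((p - x) * (p - y)) := by
  have h0 := GPB_ne hq
  have e : (q - p) * q⁻¹ = 1 - p * q⁻¹ := by rw [sub_mul, mul_inv_cancel₀ h0]
  rw [eta_sub hx hy, ← Complex.inv_eq_conj hq, e]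

theorem eta_change {p q p' q' x : ℂ} (hp : ‖p‖ = 1) (hq : ‖q‖ = 1) (hp' : ‖p'‖ = 1) (hq' : ‖q'‖ = 1)
    (hpq : p ≠ q) (h1 : p' ≠ p) (h2 : q' ≠ p) (hx : x ≠ p) :
    eta p' q' x * (‖p - q‖ ^ 2 : ℝ) = (‖p - q'‖ ^ 2 : ℝ) * ((eta p q p' - eta p q q') *
      (eta p q x - eta p q q') / (eta p q p' - eta p q x)) := by
  by_cases hxp : x = p'
  · subst hxp
    simp [eta]
  have n1 := GPB_ne hp
  have n2 := GPB_ne hq
  have n3 := GPB_ne hp'
  have n4 := GPB_ne hq'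
  have n5 : p - p' ≠ 0 := sub_ne_zero.2 (Ne.symm h1)
  have n6 : p - q' ≠ 0 := sub_ne_zero.2 (Ne.symm h2)
  have n7 : p - x ≠ 0 := sub_ne_zero.2 (Ne.symm hx)
  have n8 : p' - x ≠ 0 := sub_ne_zero.2 (Ne.symm hxp)
  have n9 : p - q ≠ 0 := sub_ne_zero.2 hpq
  have n10 : q - p ≠ 0 := sub_ne_zero.2 (Ne.symm hpq)
  have hI := Complex.I_ne_zero
  rw [GPB_nsq hp hq, GPB_nsq hp hq', GPB_sub hq h1 h2, GPB_sub hq hx h2, GPB_sub hq h1 hx,
    GPB_eta hq']
  field_simp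
  ring

theorem eta_change' {p q p' x : ℂ} (hp : ‖p‖ = 1) (hq : ‖q‖ = 1) (hp' : ‖p'‖ = 1)
    (hpq : p ≠ q) (h1 : p' ≠ p) (hx : x ≠ p) :
    eta p' p x = (‖p - q‖ ^ 2 : ℝ) / (eta p q p' - eta p q x) := by
  by_cases hxp : x = p'
  · subst hxp
    simp [eta]
  have n1 := GPB_ne hp
  have n2 := GPB_ne hq
  have n3 := GPB_ne hp'
  have n5 : p - p' ≠ 0 := sub_ne_zero.2 (Ne.symm h1)
  have n7 : p - x ≠ 0 := sub_ne_zero.2 (Ne.symm hx)
  have n8 : p' - x ≠ 0 := sub_ne_zero.2 (Ne.symm hxp)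
  have n9 : p - q ≠ 0 := sub_ne_zero.2 hpq
  have n10 : q - p ≠ 0 := sub_ne_zero.2 (Ne.symm hpq)
  have hI := Complex.I_ne_zero
  have hI2 : Complex.I ^ 2 = -1 := Complex.I_sq
  rw [GPB_nsq hp hq, GPB_sub hq h1 hx, GPB_eta hp]
  field_simp
  rw [hI2]
  ring

theorem eta_swap {p q q' : ℂ} (hp : ‖p‖ = 1) (hq : ‖q‖ = 1) (hq' : ‖q'‖ = 1) (h1 : q ≠ p)
    (h2 : q' ≠ p) : eta p q q' * eta p q' q = -(‖q - q'‖ ^ 2 : ℝ) := by
  have n1 := GPB_ne hp
  have n2 := GPB_ne hq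
  have n3 := GPB_ne hq'
  have n5 : p - q ≠ 0 := sub_ne_zero.2 (Ne.symm h1)
  have n6 : p - q' ≠ 0 := sub_ne_zero.2 (Ne.symm h2)
  have hI2 : Complex.I ^ 2 = -1 := Complex.I_sq
  rw [GPB_nsq hq hq', GPB_eta hq, GPB_eta hq']
  field_simp
  rw [hI2]
  ring

theorem eta_diff {p q p' q' : ℂ} (hp : ‖p‖ = 1) (hq : ‖q‖ = 1) (hp' : ‖p'‖ = 1) (hq' : ‖q'‖ = 1)
    (hpq : p ≠ q) (h1 : p' ≠ p) (h2 : q' ≠ p) :
    eta p' q' p * (eta p q p' - eta p q q') =
      -(‖p - q‖ ^ 2 * ‖p' - q'‖ ^ 2 / ‖p - p'‖ ^ 2 : ℝ) := by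
  have n1 := GPB_ne hp
  have n2 := GPB_ne hq
  have n3 := GPB_ne hp'
  have n4 := GPB_ne hq'
  have n5 : p - p' ≠ 0 := sub_ne_zero.2 (Ne.symm h1)
  have n5' : p' - p ≠ 0 := sub_ne_zero.2 h1
  have n6 : p - q' ≠ 0 := sub_ne_zero.2 (Ne.symm h2)
  have hI2 : Complex.I ^ 2 = -1 := Complex.I_sq
  have e : ((‖p - q‖ ^ 2 * ‖p' - q'‖ ^ 2 / ‖p - p'‖ ^ 2 : ℝ) : ℂ) =
      (((‖p - q‖ ^ 2 : ℝ) : ℂ) * ((‖p' - q'‖ ^ 2 : ℝ) : ℂ) / ((‖p - p'‖ ^ 2 : ℝ) : ℂ)) := by
    push_cast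
    ring
  rw [e, GPB_nsq hp hq, GPB_nsq hp' hq', GPB_nsq hp hp', GPB_sub hq h1 h2, GPB_eta hq']
  field_simp
  rw [hI2]
  ring

theorem half_disj {p q p' q' x : ℂ} (hp : ‖p‖ = 1) (hq : ‖q‖ = 1) (hp' : ‖p'‖ = 1) (hq' : ‖q'‖ = 1)
    (hpq : p ≠ q) (hpq' : p' ≠ q') (h1 : p' ∉ Arc p q) (h2 : q' ∉ Arc p q) (h3 : p ∉ Arc p' q')
    (h4 : q ∉ Arc p' q') (hd : p ≠ p' ∨ q ≠ q') (hx : ‖x‖ < 1) (hw : 0 < (eta p q x).re) :
    ¬ 0 < (eta p' q' x).re := by
  intro hw'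
  have r1 : ∀ {s t y : ℂ}, ‖s‖ = 1 → ‖t‖ = 1 → ‖y‖ = 1 → (eta s t y).im = 0 := by
    intro s t y hs ht hy
    rw [eta_im hs ht, hy]
    simp
  have r2 : ∀ {s t y : ℂ}, ‖s‖ = 1 → ‖t‖ = 1 → ‖y‖ = 1 → eta s t y = (((eta s t y).re : ℝ) : ℂ) := by
    intro s t y hs ht hy
    exact Complex.ext (by simp) (by simpa using r1 hs ht hy)
  have a1 : (eta p q p').re ≤ 0 := by
    by_contra h
    push Not at h
    exact h1 ⟨hp', h⟩
  have a2 : (eta p q q').re ≤ 0 := by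
    by_contra h
    push Not at h
    exact h2 ⟨hq', h⟩
  have a3 : (eta p' q' p).re ≤ 0 := by
    by_contra h
    push Not at h
    exact h3 ⟨hp, h⟩
  have a4 : (eta p' q' q).re ≤ 0 := by
    by_contra h
    push Not at h
    exact h4 ⟨hq, h⟩
  have hxp : x ≠ p := by
    rintro rfl
    linarith
  have hpqn : 0 < ‖p - q‖ := norm_pos_iff.2 (sub_ne_zero.2 hpq)
  have hpqn' : 0 < ‖p' - q'‖ := norm_pos_iff.2 (sub_ne_zero.2 hpq')
  by_cases hpp : p' = p
  · subst hpp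
    have hqq : q ≠ q' := by
      rcases hd with h | h
      · exact absurd rfl h
      · exact h
    have e := eta_swap hp hq hq' (Ne.symm hpq) (Ne.symm hpq')
    have hqn : 0 < ‖q - q'‖ := norm_pos_iff.2 (sub_ne_zero.2 hqq)
    have e2 := congrArg Complex.re e
    rw [r2 hp hq hq', r2 hp hq' hq, ← Complex.ofReal_mul, ← Complex.ofReal_neg, Complex.ofReal_re,
      Complex.ofReal_re] at e2
    have e3 : 0 ≤ (eta p' q q').re * (eta p' q' q).re := mul_nonneg_of_nonpos_of_nonpos a2 a4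
    have e4 : 0 < ‖q - q'‖ ^ 2 := by positivity
    linarith
  · by_cases hqp : q' = p
    · subst hqp
      have e := eta_change' hp hq hp' hpq hpp hxp
      rw [e] at hw'
      have hz : (eta q' q p' - eta q' q x).re < 0 := by
        rw [Complex.sub_re]
        linarith
      set z := eta q' q p' - eta q' q x with hzd
      rw [div_eq_mul_inv, Complex.re_ofReal_mul, Complex.inv_re] at hw'
      have hn : 0 < Complex.normSq z := by
        rw [Complex.normSq_pos]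
        intro h0
        rw [h0] at hz
        simp at hz
      have k1 : z.re / Complex.normSq z < 0 := div_neg_of_neg_of_pos hz hn
      have k2 : 0 < ‖q' - q‖ ^ 2 := by positivity
      have k3 := mul_neg_of_pos_of_neg k2 k1
      linarith
    · have e := eta_diff hp hq hp' hq' hpq hpp hqp
      have hppn : 0 < ‖p - p'‖ := norm_pos_iff.2 (sub_ne_zero.2 (Ne.symm hpp))
      have hpqn2 : 0 < ‖p - q'‖ := norm_pos_iff.2 (sub_ne_zero.2 (Ne.symm hqp))
      have e2 := congrArg Complex.re e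
      have b1 := r2 hp hq hp'
      have b2 := r2 hp hq hq'
      set P := (eta p q p').re with hP
      set Q := (eta p q q').re with hQ
      rw [b1, b2, r2 hp' hq' hp, ← Complex.ofReal_sub, ← Complex.ofReal_mul, ← Complex.ofReal_neg,
        Complex.ofReal_re, Complex.ofReal_re] at e2
      have hK : 0 < ‖p - q‖ ^ 2 * ‖p' - q'‖ ^ 2 / ‖p - p'‖ ^ 2 := by positivity
      have hPQ : 0 < P - Q := by
        by_contra h
        push Not at h
        have := mul_nonneg_of_nonpos_of_nonpos a3 h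
        linarith
      have f := eta_change hp hq hp' hq' hpq hpp hqp hxp
      rw [b1, b2] at f
      have f2 := congrArg Complex.re f
      set w := eta p q x with hwd
      have f3 : ((P : ℂ) - (Q : ℂ)) * (w - (Q : ℂ)) / ((P : ℂ) - w) =
          ((P - Q : ℝ) : ℂ) * ((w - (Q : ℂ)) / ((P : ℂ) - w)) := by
        push_cast
        ring
      rw [f3, mul_comm (eta p' q' x), Complex.re_ofReal_mul, Complex.re_ofReal_mul,
        Complex.re_ofReal_mul, Complex.div_re] at f2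
      have hn : 0 < Complex.normSq ((P : ℂ) - w) := by
        rw [Complex.normSq_pos]
        intro h0
        have h5 := congrArg Complex.re h0
        rw [Complex.sub_re, Complex.ofReal_re, Complex.zero_re] at h5
        linarith
      have g1 : (w - (Q : ℂ)).re * ((P : ℂ) - w).re / Complex.normSq ((P : ℂ) - w) +
          (w - (Q : ℂ)).im * ((P : ℂ) - w).im / Complex.normSq ((P : ℂ) - w) < 0 := by
        rw [← add_div]
        refine div_neg_of_neg_of_pos ?_ hn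
        simp only [Complex.sub_re, Complex.sub_im, Complex.ofReal_re, Complex.ofReal_im, sub_zero,
          zero_sub]
        have g2 : 0 < (w.re - Q) * (w.re - P) := mul_pos (by linarith) (by linarith)
        nlinarith [sq_nonneg w.im]
      have g3 := mul_neg_of_pos_of_neg (by positivity : 0 < ‖p - q'‖ ^ 2) (mul_neg_of_pos_of_neg hPQ g1)
      have g4 : 0 < ‖p - q‖ ^ 2 * (eta p' q' x).re := by positivity
      linarith

end TN
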