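import Pool.Agent.H57.TG.GPR
import Pool.Agent.H57.TG.GPB
import Pool.Agent.H12.TN.FF
import Pool.Agent.H12.TN.DI

/-!
GPZ (assembly of the statements on gaps).
-/

namespace TN

open Metric Set Filter Topology DS

variable {Γ : Type} [Group Γ]

theorem GPZ_two (F : Fuchs Γ) (hN : F.Nonel) : ∃ a ∈ F.lim, ∃ b ∈ F.lim, a ≠ b := by
  obtain ⟨a, ha, b, hb, hab⟩ := (lim_infinite F hN).nontrivial
  exact ⟨a, ha, b, hb, hab⟩

/-- every point of the circle off the limit set is in a gap -/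
theorem GPZ_mem (F : Fuchs Γ) (hN : F.Nonel) {ξ : ℂ} (hξ : ‖ξ‖ = 1) (h : ξ ∉ F.lim) :
    ∃ p q, IsGap F p q ∧ ξ ∈ Arc p q := by
  obtain ⟨p, hp, q, hq, hne, hmem, hgap⟩ :=
    arc_exists (lim_closed F) (fun x hx => lim_sphere F hx) (GPZ_two F hN) hξ h
  exact ⟨p, q, ⟨hp, hq, hne, hgap⟩, hmem⟩

theorem GPZ_disj (F : Fuchs Γ) {p q p' q' x : ℂ} (h : IsGap F p q) (h' : IsGap F p' q')
    (hd : ¬ (p = p' ∧ q = q')) (hx : ‖x‖ < 1) (hw : 0 < (eta p q x).re) :
    ¬ 0 < (eta p' q' x).re := by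
  refine half_disj (lim_sphere F h.mp) (lim_sphere F h.mq) (lim_sphere F h'.mp)
    (lim_sphere F h'.mq) h.ne h'.ne (fun hc => h.gap _ hc h'.mp) (fun hc => h.gap _ hc h'.mq)
    (fun hc => h'.gap _ hc h.mp) (fun hc => h'.gap _ hc h.mq) ?_ hx hw
  by_contra hcon
  push Not at hcon
  exact hd hcon

/-- all the data of `Gaps` except cocompactness follow from representatives -/
theorem GPZ_main (F : Fuchs Γ) (hN : F.Nonel) (hU : F.UC) :
    ∃ (n : ℕ) (κ : Fin n → Γ) (p q : Fin n → ℂ),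
      (∀ i, IsGap F (p i) (q i)) ∧
      (∀ i, F.AR (κ i) (p i) (q i)) ∧
      (∀ i g, F.act g (p i) = p i ↔ g ∈ Subgroup.zpowers (κ i)) ∧
      (∀ ξ : ℂ, ‖ξ‖ = 1 → ξ ∉ F.lim → ∃ g i, F.act g ξ ∈ Arc (p i) (q i)) ∧
      (∀ i j g, (i ≠ j ∨ g ∉ Subgroup.zpowers (κ i)) → ∀ x ∈ ball (0:ℂ) 1,
        0 < (eta (p i) (q i) x).re → ¬ 0 < (eta (p j) (q j) (F.act g x)).re) := by
  obtain ⟨n, p, q, h1, h2, h3⟩ := gap_reps F hU
  choose κ hκ hst using fun i => gap_stab F hU (h1 i)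
  refine ⟨n, κ, p, q, h1, hκ, hst, ?_, ?_⟩
  · intro ξ hξ hn
    obtain ⟨p', q', hg, hmem⟩ := GPZ_mem F hN hξ hn
    obtain ⟨g, i, e1, e2⟩ := h2 p' q' hg
    refine ⟨g, i, ?_⟩
    rw [← e1, ← e2]
    exact (arc_act F g (lim_sphere F hg.mp) (lim_sphere F hg.mq) hξ).2 hmem
  · intro i j g hij x hx hw
    have hx1 : ‖x‖ < 1 := by simpa using hx
    have hgx : ‖F.act g x‖ < 1 := act_lt F g hx1
    have hgap := gap_act F g (h1 i)
    have hp1 := lim_sphere F (h1 i).mp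
    have hq1 := lim_sphere F (h1 i).mq
    refine GPZ_disj F hgap (h1 j) ?_ hgx ?_
    · rintro ⟨e1, e2⟩
      have hij' := h3 i j g e1 e2
      subst hij'
      rcases hij with hij | hij
      · exact hij rfl
      · exact hij ((hst i g).1 e1)
    · rw [eta_act F g hp1 hq1 hx1.le, Complex.re_ofReal_mul]
      have h0 : 0 < ‖F.dact g (q i)‖ := norm_pos_iff.2 (dact_ne F g hq1.le)
      exact mul_pos h0 hw

theorem gaps_aux (F : Fuchs Γ) (hN : F.Nonel) (hU : F.UC) :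
    ∃ (n : ℕ) (κ : Fin n → Γ) (p q : Fin n → ℂ),
      (∀ i, F.AR (κ i) (p i) (q i)) ∧
      (∀ i g, F.act g (p i) = p i ↔ g ∈ Subgroup.zpowers (κ i)) ∧
      (∀ i, ∀ ξ : ℂ, ‖ξ‖ = 1 → ξ ≠ p i → 0 < (eta (p i) (q i) ξ).re → ξ ∉ F.lim) ∧
      (∀ ξ : ℂ, ‖ξ‖ = 1 → ξ ∉ F.lim →
        ∃ g i, F.act g ξ ≠ p i ∧ 0 < (eta (p i) (q i) (F.act g ξ)).re) ∧
      (∀ i j g, (i ≠ j ∨ g ∉ Subgroup.zpowers (κ i)) → ∀ x ∈ ball (0:ℂ) 1,
        0 < (eta (p i) (q i) x).re → ¬ 0 < (eta (p j) (q j) (F.act g x)).re) ∧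
      (∀ y : ℝ, 0 < y → ∃ ρ : ℝ, ρ < 1 ∧ ∀ x ∈ ball (0:ℂ) 1,
        (∀ i g, y ≤ (om (p i) (q i) (F.act g x)).im) → ∃ g, ‖F.act g x‖ ≤ ρ) := by
  obtain ⟨n, κ, p, q, hgap, hκ, hst, hall, hdisj⟩ := GPZ_main F hN hU
  refine ⟨n, κ, p, q, hκ, hst, fun i ξ hξ _ hpos => (hgap i).gap ξ ⟨hξ, hpos⟩, ?_, hdisj, ?_⟩
  · intro ξ hξ hn
    obtain ⟨g, i, h⟩ := hall ξ hξ hn
    exact ⟨g, i, Arc.ne h, h.2⟩
  · intro y hy
    by_contra hcon
    push Not at hcon
    have h1 : ∀ k : ℕ, (1 - 1 / ((k : ℝ) + 1)) < 1 := fun k => by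
      have : 0 < 1 / ((k : ℝ) + 1) := by positivity
      linarith
    choose x hx hxi hxg using fun k : ℕ => hcon _ (h1 k)
    have hx1 : ∀ k, ‖x k‖ < 1 := fun k => by simpa using hx k
    obtain ⟨φ, hφ, g, ξ, hξ, hlim, hdir⟩ := dirichlet_seq F hx1 (by
      intro ρ hρ
      obtain ⟨N, hN⟩ := exists_nat_one_div_lt (sub_pos.2 hρ)
      filter_upwards [eventually_ge_atTop N] with k hk g
      have h2 := hxg k g
      have h3 : 1 / ((k : ℝ) + 1) ≤ 1 / ((N : ℝ) + 1) := by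
        apply one_div_le_one_div_of_le (by positivity)
        have : (N : ℝ) ≤ k := by exact_mod_cast hk
        linarith
      linarith)
    by_cases hξl : ξ ∈ F.lim
    · obtain ⟨ρ, hρ, hU'⟩ := hU
      obtain ⟨a, ha⟩ := hU' ξ hξl ((max ρ 0 + 1) / 2)
        (by have := le_max_right ρ (0:ℝ); linarith)
        (by have := max_lt hρ zero_lt_one; linarith)
      have h4 := hdir a ((max ρ 0 + 1) / 2)
        (by have := le_max_right ρ (0:ℝ); linarith)
        (by have := max_lt hρ zero_lt_one; linarith)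
      have h5 := le_max_left ρ (0:ℝ)
      have h6 := max_lt hρ zero_lt_one
      linarith
    · obtain ⟨a, i, ha⟩ := hall ξ hξ hξl
      have hpi := lim_sphere F (hgap i).mp
      have hqi := lim_sphere F (hgap i).mq
      have haξ : ‖F.act a ξ‖ = 1 := act_eq F a hξ
      have him : (om (p i) (q i) (F.act a ξ)).im = 0 := by
        rcases om_im_zero hpi hqi (hgap i).ne haξ (Arc.ne ha) (Arc.ne' ha) with h | h
        · exact h.1
        · exact absurd ha.2 (not_lt.2 h.2.le)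
      have hDpq : F.act a ξ ∈ Dpq (p i) (q i) := ⟨haξ.le, Arc.ne ha, Arc.ne' ha⟩
      have hc1 : Tendsto (fun k => F.act a (F.act (g k) (x (φ k)))) atTop (𝓝 (F.act a ξ)) := by
        have hc := (act_cont F a) ξ (by simpa using hξ.le)
        refine hc.tendsto.comp (tendsto_nhdsWithin_iff.2 ⟨hlim, Eventually.of_forall fun k => ?_⟩)
        have := (act_lt F (g k) (hx1 (φ k))).le
        simpa using this
      have hc2 : Tendsto (fun k => (om (p i) (q i) (F.act a (F.act (g k) (x (φ k))))).im) atTop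
          (𝓝 (om (p i) (q i) (F.act a ξ)).im) := by
        have hc := (om_cont hpi hqi (hgap i).ne) _ hDpq
        refine (Complex.continuous_im.tendsto _).comp (hc.tendsto.comp
          (tendsto_nhdsWithin_iff.2 ⟨hc1, Eventually.of_forall fun k => ?_⟩))
        have h7 : ‖F.act a (F.act (g k) (x (φ k)))‖ < 1 := act_lt F a (act_lt F (g k) (hx1 (φ k)))
        refine ⟨h7.le, ?_, ?_⟩
        · intro he
          rw [he, hpi] at h7
          exact lt_irrefl _ h7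
        · intro he
          rw [he, hqi] at h7
          exact lt_irrefl _ h7
      rw [him] at hc2
      have h8 : ∀ k, y ≤ (om (p i) (q i) (F.act a (F.act (g k) (x (φ k))))).im := by
        intro k
        rw [← act_mul F a (g k) (hx1 (φ k)).le]
        exact hxi (φ k) i (a * g k)
      have h9 := ge_of_tendsto hc2 (Eventually.of_forall h8)
      linarith

end TN
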