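import Pool.Agent.H57.TG.TGDefs

/-!
GPA (equivariance of `eta`; images of gaps).

`eta_act`.  `conj q = q⁻¹`, so `1 - p conj q = conj q (q - p)` and `eta p q x = I conj q (q - p)(x - q)/(p - x)`; the same for the images
(`‖act g q‖ = 1`).  By `mob_sub` (MB), `β = F.b g`, `u = F.u g`: `act g x - act g q = u (1-|β|²)(x - q)/((1 - conj β x)(1 - conj β q))` etc.  So for
`x ≠ p`: `eta (gp) (gq) (gx) = eta p q x * [conj (gq) u q (1-|β|²)/(1 - conj β q)²]`, and with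
`gq = u (q - β)/(1 - conj β q)`, `conj (gq) = conj u (conj q - conj β)/(1 - β conj q)`, `(conj q - conj β) = conj q (1 - conj β q)`, the bracket is
`(1-|β|²)/((1 - β conj q)(1 - conj β q)) = (1-|β|²)/‖1 - conj β q‖² = ‖dact g q‖` (`mobD_norm`).  For `x = p` both sides are `0`
(division by zero; `act g p - act g p = 0`), `act g x ≠ act g p` for `x ≠ p` (`act_inj`).
`arc_act`: from `eta_act`, `‖dact g q‖ > 0` (`dact_ne`).
`gap_act`: if `ξ ∈ Arc (gp) (gq)` then `act g⁻¹ ξ ∈ Arc p q` (`arc_act` for `g⁻¹`, `act_inv_act`), so `act g⁻¹ ξ ∉ lim`, and `lim_inv_iff`.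
-/

namespace TN

open Metric Set Filter Topology DS

variable {Γ : Type} [Group Γ]

/-- the algebraic identity behind `eta_act` -/
private theorem GPA_id {u b B p q x : ℂ} (hu : u ≠ 0) (hq0 : q ≠ 0) (hqb : q - b ≠ 0)
    (hcp : 1 - B * p ≠ 0) (hcq : 1 - B * q ≠ 0) (hcx : 1 - B * x ≠ 0) (hbb : 1 - B * b ≠ 0)
    (hpx : p - x ≠ 0) :
    Complex.I * (1 - u * (p - b) / (1 - B * p) * (u * (q - b) / (1 - B * q))⁻¹) *
        (u * (x - b) / (1 - B * x) - u * (q - b) / (1 - B * q)) /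
        (u * (p - b) / (1 - B * p) - u * (x - b) / (1 - B * x)) =
      (1 - B * b) / ((1 - B * q) * ((q - b) / q)) *
        (Complex.I * (1 - p * q⁻¹) * (x - q) / (p - x)) := by
  have h1 : u * (p - b) / (1 - B * p) - u * (x - b) / (1 - B * x) =
      u * (1 - B * b) * (p - x) / ((1 - B * p) * (1 - B * x)) := by
    rw [div_sub_div _ _ hcp hcx]
    congr 1
    ring
  have h2 : u * (x - b) / (1 - B * x) - u * (q - b) / (1 - B * q) =
      u * (1 - B * b) * (x - q) / ((1 - B * x) * (1 - B * q)) := by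
    rw [div_sub_div _ _ hcx hcq]
    congr 1
    ring
  have h3 : 1 - u * (p - b) / (1 - B * p) * (u * (q - b) / (1 - B * q))⁻¹ =
      (1 - B * b) * (q - p) / ((1 - B * p) * (q - b)) := by
    rw [inv_div, div_mul_div_comm, one_sub_div (mul_ne_zero hcp (mul_ne_zero hu hqb)),
      ← mul_div_mul_left _ ((1 - B * p) * (q - b)) hu]
    congr 1 <;> ring
  rw [h1, h2, h3]
  field_simp

theorem eta_act (F : Fuchs Γ) (g : Γ) {p q x : ℂ} (hp : ‖p‖ = 1) (hq : ‖q‖ = 1) (hx : ‖x‖ ≤ 1) :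
    eta (F.act g p) (F.act g q) (F.act g x) = (‖F.dact g q‖ : ℂ) * eta p q x := by
  by_cases hpx : p = x
  · subst hpx
    simp [eta]
  have hb := F.hb g
  have hu := F.hu g
  have hq0 : q ≠ 0 := by
    rintro rfl
    simp at hq
  have hqb : q - F.b g ≠ 0 := by
    rw [sub_ne_zero]
    rintro rfl
    rw [hq] at hb
    exact lt_irrefl _ hb
  have hcp := den_ne hb hp.le
  have hcq := den_ne hb hq.le
  have hcx := den_ne hb hx
  have hbb := MB_bb_ne hb
  have hQ : (starRingEnd ℂ) (F.act g q) = (F.act g q)⁻¹ := by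
    rw [Complex.inv_eq_conj (act_eq F g hq)]
  have hq' : (starRingEnd ℂ) q = q⁻¹ := by
    rw [Complex.inv_eq_conj hq]
  have hd : ((‖F.dact g q‖ : ℝ) : ℂ) = (1 - (starRingEnd ℂ) (F.b g) * F.b g) /
      ((1 - (starRingEnd ℂ) (F.b g) * q) * ((q - F.b g) / q)) := by
    have h1 : ‖F.dact g q‖ = (1 - ‖F.b g‖ ^ 2) / ‖1 - (starRingEnd ℂ) (F.b g) * q‖ ^ 2 :=
      mobD_norm hu hb
    rw [h1]
    push_cast
    rw [← Complex.conj_mul', ← Complex.conj_mul']
    have h2 : (starRingEnd ℂ) (1 - (starRingEnd ℂ) (F.b g) * q) = (q - F.b g) / q := by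
      rw [map_sub, map_one, map_mul, Complex.conj_conj, hq']
      field_simp
    rw [h2, mul_comm ((q - F.b g) / q)]
  have key := GPA_id (u := F.u g) (b := F.b g) (B := (starRingEnd ℂ) (F.b g)) (p := p) (q := q)
    (x := x) (MB_u_ne hu) hq0 hqb hcp hcq hcx hbb (sub_ne_zero.2 hpx)
  unfold eta
  rw [hQ, hq', hd]
  exact key

theorem arc_act (F : Fuchs Γ) (g : Γ) {p q ξ : ℂ} (hp : ‖p‖ = 1) (hq : ‖q‖ = 1) (hξ : ‖ξ‖ = 1) :
    F.act g ξ ∈ Arc (F.act g p) (F.act g q) ↔ ξ ∈ Arc p q := by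
  have h1 := eta_act F g hp hq hξ.le
  have h2 : 0 < ‖F.dact g q‖ := norm_pos_iff.2 (dact_ne F g hq.le)
  have h3 : (eta (F.act g p) (F.act g q) (F.act g ξ)).re = ‖F.dact g q‖ * (eta p q ξ).re := by
    rw [h1, Complex.re_ofReal_mul]
  constructor
  · rintro ⟨-, h⟩
    rw [h3] at h
    exact ⟨hξ, (mul_pos_iff_of_pos_left h2).1 h⟩
  · rintro ⟨-, h⟩
    refine ⟨act_eq F g hξ, ?_⟩
    rw [h3]
    exact mul_pos h2 h

theorem gap_act (F : Fuchs Γ) (g : Γ) {p q : ℂ} (h : IsGap F p q) :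
    IsGap F (F.act g p) (F.act g q) := by
  have hp := lim_sphere F h.mp
  have hq := lim_sphere F h.mq
  refine ⟨lim_inv F g h.mp, lim_inv F g h.mq, ?_, ?_⟩
  · intro he
    exact h.ne (act_inj F g (by simpa using hp.le) (by simpa using hq.le) he)
  · intro ξ hξ hl
    have hn := hξ.1
    have h1 : F.act g (F.act g⁻¹ ξ) = ξ := act_act_inv F g hn.le
    have h2 : ‖F.act g⁻¹ ξ‖ = 1 := act_eq F g⁻¹ hn
    rw [← h1] at hξ hl
    rw [arc_act F g hp hq h2] at hξ
    exact h.gap _ hξ ((lim_inv_iff F g h2).1 hl)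

end TN
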