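import Pool.Agent.H57.TG.TGDefs

/-!
GPC (real coordinate on the circle minus a point).  `tco ξ x = re (I (ξ + x)/(ξ - x))`, `‖ξ‖ = ‖x‖ = 1`, `x ≠ ξ`.
`tco_eq`: `I (ξ + x)/(ξ - x)` is real: its conjugate is `- I (ξ⁻¹ + x⁻¹)/(ξ⁻¹ - x⁻¹) = - I (x + ξ)/(x - ξ)`.
`tco_inv`: from `t (ξ - x) = I (ξ + x)`: `x (t + I) = ξ (t - I)`.  So `x = ξ (t - I)/(t + I)` (`t + I ≠ 0` as `t` is real), and `tco` is injective.
For two such points: `x - y = ξ * 2 I (tx - ty)/((tx + I)(ty + I))`, and `conj q = q⁻¹ = ξ⁻¹ (tq + I)/(tq - I)`,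
`1 - p conj q = conj q (q - p)`.  Insert in `eta p q x = I conj q (q - p)(x - q)/(p - x)`:
`eta_tco`: `= 2 (tp - tq)(tx - tq)/((1 + tq²)(tp - tx))` for `x ≠ p` (`(tq - I)(tq + I) = 1 + tq²`).
`eta_tco_self` (`x = ξ`): `ξ - q = ξ 2 I/(tq + I)`, `p - ξ = - ξ 2 I/(tp + I)`: `eta p q ξ = 2 (tq - tp)/(1 + tq²)`.
`tco_cont`: quotient with nonzero denominator.
-/

namespace TN

open Metric Set Filter Topology DS

private theorem GPC_conj {x : ℂ} (hx : ‖x‖ = 1) : (starRingEnd ℂ) x * x = 1 := by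
  rw [← Complex.inv_eq_conj hx]
  refine inv_mul_cancel₀ ?_
  rintro rfl
  simp at hx

private theorem GPC_addI (t : ℝ) : (t : ℂ) + Complex.I ≠ 0 := by
  intro h
  have := congrArg Complex.im h
  simp at this

private theorem GPC_subI (t : ℝ) : (t : ℂ) - Complex.I ≠ 0 := by
  intro h
  have := congrArg Complex.im h
  simp at this

private theorem GPC_one (t : ℝ) : (1 : ℂ) + (t : ℂ) ^ 2 = ((t : ℂ) - Complex.I) * ((t : ℂ) + Complex.I) := by
  linear_combination Complex.I_sq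

theorem tco_eq {ξ x : ℂ} (hξ : ‖ξ‖ = 1) (hx : ‖x‖ = 1) (hne : x ≠ ξ) :
    (tco ξ x : ℂ) = Complex.I * (ξ + x) / (ξ - x) := by
  unfold tco
  rw [← Complex.conj_eq_iff_re]
  have h1 := GPC_conj hξ
  have h2 := GPC_conj hx
  have h3 : ξ - x ≠ 0 := sub_ne_zero.2 hne.symm
  have h4 : (starRingEnd ℂ) ξ - (starRingEnd ℂ) x ≠ 0 := by
    rw [← map_sub]
    exact (map_ne_zero _).2 h3
  rw [map_div₀, map_mul, map_add, map_sub, Complex.conj_I, div_eq_div_iff h4 h3]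
  linear_combination (-2 * Complex.I) * h1 + (2 * Complex.I) * h2

theorem tco_inv {ξ x : ℂ} (hξ : ‖ξ‖ = 1) (hx : ‖x‖ = 1) (hne : x ≠ ξ) :
    x = ξ * ((tco ξ x : ℂ) - Complex.I) / ((tco ξ x : ℂ) + Complex.I) := by
  have h1 := tco_eq hξ hx hne
  have h3 : ξ - x ≠ 0 := sub_ne_zero.2 hne.symm
  rw [eq_div_iff h3] at h1
  rw [eq_div_iff (GPC_addI _)]
  linear_combination -h1

theorem tco_inj {ξ x y : ℂ} (hξ : ‖ξ‖ = 1) (hx : ‖x‖ = 1) (hxne : x ≠ ξ) (hy : ‖y‖ = 1)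
    (hyne : y ≠ ξ) (h : tco ξ x = tco ξ y) : x = y := by
  rw [tco_inv hξ hx hxne, tco_inv hξ hy hyne, h]

theorem tco_cont (ξ : ℂ) : ContinuousOn (tco ξ) {ξ}ᶜ := by
  unfold tco
  refine Complex.continuous_re.comp_continuousOn ?_
  refine ContinuousOn.div ?_ ?_ ?_
  · exact (continuous_const.mul (continuous_const.add continuous_id)).continuousOn
  · exact (continuous_const.sub continuous_id).continuousOn
  · intro x hx
    exact sub_ne_zero.2 (fun h => hx (h ▸ rfl))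

private theorem GPC_one_sub {ξ p q : ℂ} {P Q : ℝ} (hξ : ‖ξ‖ = 1)
    (hp : p = ξ * ((P : ℂ) - Complex.I) / ((P : ℂ) + Complex.I))
    (hq : q = ξ * ((Q : ℂ) - Complex.I) / ((Q : ℂ) + Complex.I)) :
    1 - p * (starRingEnd ℂ) q =
      2 * Complex.I * ((Q : ℂ) - P) / (((P : ℂ) + Complex.I) * ((Q : ℂ) - Complex.I)) := by
  have h1 := GPC_conj hξ
  have hP := GPC_addI P
  have hQ := GPC_subI Q
  have hcq : (starRingEnd ℂ) q =
      (starRingEnd ℂ) ξ * ((Q : ℂ) + Complex.I) / ((Q : ℂ) - Complex.I) := by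
    rw [hq, map_div₀, map_mul, map_sub, map_add, Complex.conj_I, Complex.conj_ofReal,
      sub_neg_eq_add, ← sub_eq_add_neg]
  have h2 : p * (starRingEnd ℂ) q = (((P : ℂ) - Complex.I) * ((Q : ℂ) + Complex.I)) /
      (((P : ℂ) + Complex.I) * ((Q : ℂ) - Complex.I)) := by
    rw [hcq, hp, div_mul_div_comm]
    congr 1
    linear_combination (((P : ℂ) - Complex.I) * ((Q : ℂ) + Complex.I)) * h1
  rw [h2, eq_div_iff (mul_ne_zero hP hQ), sub_mul, div_mul_cancel₀ _ (mul_ne_zero hP hQ)]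
  ring

theorem eta_tco {ξ p q x : ℂ} (hξ : ‖ξ‖ = 1) (hp : ‖p‖ = 1) (hq : ‖q‖ = 1) (hx : ‖x‖ = 1)
    (hpn : p ≠ ξ) (hqn : q ≠ ξ) (hxn : x ≠ ξ) (hxp : x ≠ p) :
    eta p q x = ((2 * (tco ξ p - tco ξ q) * (tco ξ x - tco ξ q) /
      ((1 + tco ξ q ^ 2) * (tco ξ p - tco ξ x)) : ℝ) : ℂ) := by
  have hξ0 : ξ ≠ 0 := by
    rintro rfl
    simp at hξ
  have hp' := tco_inv hξ hp hpn
  have hq' := tco_inv hξ hq hqn
  have hx' := tco_inv hξ hx hxn
  have hPT : tco ξ p ≠ tco ξ x := fun h => hxp (tco_inj hξ hp hpn hx hxn h).symm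
  have e1 := GPC_one_sub hξ hp' hq'
  generalize tco ξ p = P at *
  generalize tco ξ q = Q at *
  generalize tco ξ x = T at *
  have hP := GPC_addI P
  have hQ := GPC_addI Q
  have hQ' := GPC_subI Q
  have hT := GPC_addI T
  have hPT' : (P : ℂ) - T ≠ 0 := sub_ne_zero.2 (by exact_mod_cast hPT)
  have hI := Complex.I_ne_zero
  have e2 : x - q = ξ * (2 * Complex.I * ((T : ℂ) - Q)) /
      (((T : ℂ) + Complex.I) * ((Q : ℂ) + Complex.I)) := by
    rw [hx', hq', div_sub_div _ _ hT hQ]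
    congr 1
    ring
  have e3 : p - x = ξ * (2 * Complex.I * ((P : ℂ) - T)) /
      (((P : ℂ) + Complex.I) * ((T : ℂ) + Complex.I)) := by
    rw [hp', hx', div_sub_div _ _ hP hT]
    congr 1
    ring
  have e4 : Complex.I * (2 * Complex.I * ((Q : ℂ) - P)) = 2 * ((P : ℂ) - Q) := by
    linear_combination (2 * ((Q : ℂ) - P)) * Complex.I_sq
  unfold eta
  rw [e1, e2, e3]
  push_cast
  rw [GPC_one Q, mul_div_assoc' Complex.I, e4]
  field_simp

theorem eta_tco_self {ξ p q : ℂ} (hξ : ‖ξ‖ = 1) (hp : ‖p‖ = 1) (hq : ‖q‖ = 1)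
    (hpn : p ≠ ξ) (hqn : q ≠ ξ) :
    eta p q ξ = ((2 * (tco ξ q - tco ξ p) / (1 + tco ξ q ^ 2) : ℝ) : ℂ) := by
  have hξ0 : ξ ≠ 0 := by
    rintro rfl
    simp at hξ
  have hp' := tco_inv hξ hp hpn
  have hq' := tco_inv hξ hq hqn
  have e1 := GPC_one_sub hξ hp' hq'
  generalize tco ξ p = P at *
  generalize tco ξ q = Q at *
  have hP := GPC_addI P
  have hQ := GPC_addI Q
  have hQ' := GPC_subI Q
  have hI := Complex.I_ne_zero
  have e2 : ξ - q = ξ * (2 * Complex.I) / ((Q : ℂ) + Complex.I) := by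
    rw [hq', eq_div_iff hQ, sub_mul, div_mul_cancel₀ _ hQ]
    ring
  have e3 : p - ξ = -(ξ * (2 * Complex.I)) / ((P : ℂ) + Complex.I) := by
    rw [hp', eq_div_iff hP, sub_mul, div_mul_cancel₀ _ hP]
    ring
  have e4 : Complex.I * (2 * Complex.I * ((Q : ℂ) - P)) = -(2 * ((Q : ℂ) - P)) := by
    linear_combination (2 * ((Q : ℂ) - P)) * Complex.I_sq
  unfold eta
  rw [e1, e2, e3]
  push_cast
  rw [GPC_one Q, mul_div_assoc' Complex.I, e4]
  field_simp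

end TN
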