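import Pool.Agent.H57.TG.GPC

/-!
GPD (existence and uniqueness of complementary arcs).  Everything through the coordinate `t = tco ξ` of GPC at the point `ξ`.

`arc_exists`: `t` is continuous on the compact set `L` (closed, contained in the circle, `ξ ∉ L`; `tco_cont`); let `p ∈ L` be a point where it is minimal and
`q ∈ L` one where it is maximal; `p ≠ q`, more precisely `t p < t q`, because `L` has two points and `t` is injective (`tco_inj`).  `eta_tco_self`: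
`eta p q ξ = 2 (tq - tp)/(1+tq²) > 0`, so `ξ ∈ Arc p q`.  Let `x ∈ Arc p q`, `x ∈ L`: `x ≠ ξ`, `x ≠ p` (`Arc.ne`), `tp < tx ≤ tq`, and
by `eta_tco` the real number `eta p q x = 2 (tp-tq)(tx-tq)/((1+tq²)(tp-tx))` is `≤ 0` (numerator `≥ 0`, denominator `< 0`): contradiction.

`arc_unique`: the four points are different from `ξ` (`Arc.ne`, `Arc.ne'`).  `ξ ∈ Arc p q` gives `tp < tq`, `ξ ∈ Arc p' q'` gives `tp' < tq'` (`eta_tco_self`).
A point `x ≠ ξ` of the circle with `t x < t p` is in `Arc p q`, and one with `t x > t q` too (`eta_tco`, signs).  So `h1`: `tp ≤ tp'`, `h3`: `tp' ≤ tp`,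
so `p = p'` (`tco_inj`); `h2`: `tq' ≤ tq`, `h4`: `tq ≤ tq'`, so `q = q'`.
-/

namespace TN

open Metric Set Filter Topology DS

theorem arc_exists {L : Set ℂ} (hL : IsClosed L) (hs : ∀ x ∈ L, ‖x‖ = 1)
    (h2 : ∃ a ∈ L, ∃ b ∈ L, a ≠ b) {ξ : ℂ} (hξ : ‖ξ‖ = 1) (h : ξ ∉ L) :
    ∃ p ∈ L, ∃ q ∈ L, p ≠ q ∧ ξ ∈ Arc p q ∧ ∀ x ∈ Arc p q, x ∉ L := by
  obtain ⟨a, ha, b, hb, hab⟩ := h2
  have hne : ∀ x ∈ L, x ≠ ξ := fun x hx he => h (he ▸ hx)
  have hK : IsCompact L := (isCompact_closedBall (0:ℂ) 1).of_isClosed_subset hL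
    fun x hx => by simpa using (hs x hx).le
  have hcont : ContinuousOn (tco ξ) L := (tco_cont ξ).mono fun x hx => hne x hx
  obtain ⟨p, hp, hpm⟩ := hK.exists_isMinOn ⟨a, ha⟩ hcont
  obtain ⟨q, hq, hqm⟩ := hK.exists_isMaxOn ⟨a, ha⟩ hcont
  have hpm' : ∀ x ∈ L, tco ξ p ≤ tco ξ x := fun x hx => hpm hx
  have hqm' : ∀ x ∈ L, tco ξ x ≤ tco ξ q := fun x hx => hqm hx
  have hlt : tco ξ p < tco ξ q := by
    by_contra hcon
    have h1 : tco ξ a = tco ξ b := by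
      have h2 := hpm' a ha
      have h3 := hpm' b hb
      have h4 := hqm' a ha
      have h5 := hqm' b hb
      linarith
    exact hab (tco_inj hξ (hs a ha) (hne a ha) (hs b hb) (hne b hb) h1)
  have hpq : p ≠ q := fun he => by rw [he] at hlt; exact lt_irrefl _ hlt
  refine ⟨p, hp, q, hq, hpq, ⟨hξ, ?_⟩, fun x hx hxL => ?_⟩
  · rw [eta_tco_self hξ (hs p hp) (hs q hq) (hne p hp) (hne q hq), Complex.ofReal_re]
    exact div_pos (by linarith) (by positivity)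
  · have h1 := hx.2
    have hxp := Arc.ne hx
    rw [eta_tco hξ (hs p hp) (hs q hq) (hs x hxL) (hne p hp) (hne q hq) (hne x hxL) hxp,
      Complex.ofReal_re] at h1
    have h2 : tco ξ p < tco ξ x := lt_of_le_of_ne (hpm' x hxL) fun he =>
      hxp (tco_inj hξ (hs x hxL) (hne x hxL) (hs p hp) (hne p hp) he.symm)
    have h3 := hqm' x hxL
    refine absurd h1 (not_lt.2 ?_)
    apply div_nonpos_of_nonneg_of_nonpos
    · nlinarith
    · have : 0 < 1 + tco ξ q ^ 2 := by positivity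
      nlinarith

/-- points to the left of `p` or to the right of `q` are in the arc -/
theorem GPD_mem {p q x ξ : ℂ} (hξ : ‖ξ‖ = 1) (hp : ‖p‖ = 1) (hq : ‖q‖ = 1) (hx : ‖x‖ = 1)
    (hpn : p ≠ ξ) (hqn : q ≠ ξ) (hxn : x ≠ ξ) (hlt : tco ξ p < tco ξ q)
    (h : tco ξ x < tco ξ p ∨ tco ξ q < tco ξ x) : x ∈ Arc p q := by
  refine ⟨hx, ?_⟩
  have hxp : x ≠ p := by
    rintro rfl
    rcases h with h | h
    · exact lt_irrefl _ h
    · exact lt_asymm h hlt
  rw [eta_tco hξ hp hq hx hpn hqn hxn hxp, Complex.ofReal_re]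
  have h0 : 0 < 1 + tco ξ q ^ 2 := by positivity
  rcases h with h | h
  · apply div_pos
    · nlinarith [mul_pos (sub_pos.2 hlt) (sub_pos.2 (h.trans hlt))]
    · exact mul_pos h0 (sub_pos.2 h)
  · have h1 : 0 < (tco ξ q - tco ξ p) * (tco ξ x - tco ξ q) := mul_pos (sub_pos.2 hlt) (sub_pos.2 h)
    apply div_pos_of_neg_of_neg
    · nlinarith
    · have h2 : tco ξ p - tco ξ x < 0 := by linarith
      exact mul_neg_of_pos_of_neg h0 h2

theorem GPD_lt {p q ξ : ℂ} (hp : ‖p‖ = 1) (hq : ‖q‖ = 1) (h : ξ ∈ Arc p q) :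
    tco ξ p < tco ξ q := by
  have h1 := h.2
  rw [eta_tco_self h.1 hp hq (Arc.ne h).symm (Arc.ne' h).symm, Complex.ofReal_re] at h1
  by_contra hcon
  refine absurd h1 (not_lt.2 ?_)
  apply div_nonpos_of_nonpos_of_nonneg
  · linarith
  · positivity

theorem arc_unique {p q p' q' ξ : ℂ} (hp : ‖p‖ = 1) (hq : ‖q‖ = 1) (hp' : ‖p'‖ = 1)
    (hq' : ‖q'‖ = 1) (h : ξ ∈ Arc p q) (h' : ξ ∈ Arc p' q') (h1 : p' ∉ Arc p q) (h2 : q' ∉ Arc p q)
    (h3 : p ∉ Arc p' q') (h4 : q ∉ Arc p' q') : p = p' ∧ q = q' := by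
  have hξ := h.1
  have np := (Arc.ne h).symm
  have nq := (Arc.ne' h).symm
  have np' := (Arc.ne h').symm
  have nq' := (Arc.ne' h').symm
  have l1 := GPD_lt hp hq h
  have l2 := GPD_lt hp' hq' h'
  have e1 : tco ξ p ≤ tco ξ p' := by
    by_contra hc
    exact h1 (GPD_mem hξ hp hq hp' np nq np' l1 (Or.inl (not_le.1 hc)))
  have e2 : tco ξ p' ≤ tco ξ p := by
    by_contra hc
    exact h3 (GPD_mem hξ hp' hq' hp np' nq' np l2 (Or.inl (not_le.1 hc)))
  have e3 : tco ξ q' ≤ tco ξ q := by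
    by_contra hc
    exact h2 (GPD_mem hξ hp hq hq' np nq nq' l1 (Or.inr (not_le.1 hc)))
  have e4 : tco ξ q ≤ tco ξ q' := by
    by_contra hc
    exact h4 (GPD_mem hξ hp' hq' hq np' nq' nq l2 (Or.inr (not_le.1 hc)))
  exact ⟨tco_inj hξ hp np hp' np' (le_antisymm e1 e2), tco_inj hξ hq nq hq' nq' (le_antisymm e4 e3)⟩

end TN
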