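import Pool.Agent.H57.TG.GPA
import Pool.Agent.H57.TG.GPD

/-!
GPF (finitely many large gaps).
`gap_unique`: `arc_unique` (the end points of a gap are in `lim`, so in no gap).
`gap_finite`: suppose that the set `S` of pairs is infinite.  It is contained in the compact set `closedBall 0 1 ×ˢ closedBall 0 1`
(`lim_sphere`), so it has an accumulation point `(p₀, q₀)` (`Set.Infinite.exists_accPt_of_subset_isCompact`); by closedness `‖p₀‖ = ‖q₀‖ = 1`,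
`c ≤ dist p₀ q₀`.  Let `m = omi p₀ q₀ 0`: `‖m‖ = 1` (`omi_sphere`), `m ≠ p₀, q₀` (`omi_mem`), `eta p₀ q₀ m = exp (om p₀ q₀ m) = exp 0 = 1`
(`exp_om`, `om_omi`; `0 ∈ Str`).  The function `(p, q) ↦ eta p q m` is continuous at `(p₀, q₀)` (`p₀ ≠ m`), so
there is a neighbourhood of `(p₀, q₀)` where its real part is positive, i.e. `m ∈ Arc p q`.  It contains two different elements of `S`
(accumulation point), contradiction to `gap_unique`.
-/

namespace TN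

open Metric Set Filter Topology DS

variable {Γ : Type} [Group Γ]

theorem gap_unique (F : Fuchs Γ) {p q p' q' ξ : ℂ} (h : IsGap F p q) (h' : IsGap F p' q')
    (hξ : ξ ∈ Arc p q) (hξ' : ξ ∈ Arc p' q') : p = p' ∧ q = q' :=
  arc_unique (lim_sphere F h.mp) (lim_sphere F h.mq) (lim_sphere F h'.mp) (lim_sphere F h'.mq)
    hξ hξ' (fun hc => h.gap _ hc h'.mp) (fun hc => h.gap _ hc h'.mq)
    (fun hc => h'.gap _ hc h.mp) (fun hc => h'.gap _ hc h.mq)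

theorem GPF_cont {p₀ q₀ m : ℂ} (hm : m ≠ p₀) :
    ContinuousAt (fun s : ℂ × ℂ => (eta s.1 s.2 m).re) (p₀, q₀) := by
  unfold eta
  refine Complex.continuous_re.continuousAt.comp (ContinuousAt.div ?_ ?_ ?_)
  · fun_prop
  · fun_prop
  · simpa [sub_eq_zero] using hm.symm

theorem gap_finite (F : Fuchs Γ) {c : ℝ} (hc : 0 < c) :
    {s : ℂ × ℂ | IsGap F s.1 s.2 ∧ c ≤ dist s.1 s.2}.Finite := by
  by_contra hinf
  have hinf' : {s : ℂ × ℂ | IsGap F s.1 s.2 ∧ c ≤ dist s.1 s.2}.Infinite := hinf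
  set S := {s : ℂ × ℂ | IsGap F s.1 s.2 ∧ c ≤ dist s.1 s.2} with hS
  set T : Set (ℂ × ℂ) := {s | (‖s.1‖ = 1 ∧ ‖s.2‖ = 1) ∧ c ≤ dist s.1 s.2} with hT
  have hST : S ⊆ T := fun s hs => ⟨⟨lim_sphere F hs.1.mp, lim_sphere F hs.1.mq⟩, hs.2⟩
  have hTc : IsClosed T := by
    have h1 : IsClosed {s : ℂ × ℂ | ‖s.1‖ = 1} := isClosed_eq (by fun_prop) continuous_const
    have h2 : IsClosed {s : ℂ × ℂ | ‖s.2‖ = 1} := isClosed_eq (by fun_prop) continuous_const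
    have h3 : IsClosed {s : ℂ × ℂ | c ≤ dist s.1 s.2} := isClosed_le continuous_const (by fun_prop)
    exact (h1.inter h2).inter h3
  have hTK : IsCompact T := by
    refine ((isCompact_closedBall (0:ℂ) 1).prod (isCompact_closedBall (0:ℂ) 1)).of_isClosed_subset
      hTc fun s hs => ?_
    exact ⟨by simpa using hs.1.1.le, by simpa using hs.1.2.le⟩
  obtain ⟨⟨p₀, q₀⟩, hx, hacc⟩ := hinf'.exists_accPt_of_subset_isCompact hTK hST
  have hp : ‖p₀‖ = 1 := hx.1.1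
  have hq : ‖q₀‖ = 1 := hx.1.2
  have hpq : p₀ ≠ q₀ := by
    intro he
    have h1 : c ≤ dist p₀ q₀ := hx.2
    rw [he, dist_self] at h1
    linarith
  have h0 : (0:ℂ) ∈ Str := by
    refine ⟨by simp, ?_⟩
    simp [Real.pi_pos.le]
  set m := omi p₀ q₀ 0 with hm
  have hm1 : ‖m‖ = 1 := omi_sphere hp hq hpq (Or.inl (by simp))
  have hmD : m ∈ Dpq p₀ q₀ := omi_mem hp hq hpq h0
  have hmeta : eta p₀ q₀ m = 1 := by
    rw [← exp_om hp hq hpq hmD.2.1 hmD.2.2, hm, om_omi hp hq hpq h0, Complex.exp_zero]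
  have hev : ∀ᶠ s : ℂ × ℂ in 𝓝 (p₀, q₀), 0 < (eta s.1 s.2 m).re := by
    have h1 := (GPF_cont (p₀ := p₀) (q₀ := q₀) hmD.2.1).tendsto
    refine h1.eventually (lt_mem_nhds ?_)
    show 0 < (eta p₀ q₀ m).re
    rw [hmeta]
    simp
  have hfr := accPt_iff_frequently.1 hacc
  obtain ⟨s, ⟨hs1, hs2⟩, hs3⟩ := (hfr.and_eventually hev).exists
  have hne : ∀ᶠ t : ℂ × ℂ in 𝓝 (p₀, q₀), t ≠ s := by
    have : IsOpen {t : ℂ × ℂ | t ≠ s} := isOpen_ne
    exact this.mem_nhds hs1.symm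
  obtain ⟨t, ⟨⟨ht1, ht2⟩, ht3⟩, ht4⟩ := ((hfr.and_eventually hev).and_eventually hne).exists
  have h5 := gap_unique F ht2.1 hs2.1 ⟨hm1, ht3⟩ ⟨hm1, hs3⟩
  exact ht4 (Prod.ext h5.1 h5.2)

end TN
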