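import Pool.Agent.H57.TG.TCP
import Pool.Agent.H57.TG.GPF

/-!
GPE (images of a gap under the elements that follow a ray; stabiliser of a gap).
`gap_far`: `ρ` from `UC`, `c = (1-ρ²)/8` (`0 ≤ ρ`: if `lim` is empty there is nothing to prove, otherwise `ρ ≥ ‖..‖ ≥ 0`).  Let `p ∈ lim`, `‖q‖ = 1`, `q ≠ p`.
For `n : ℕ` let `r_n = 1 - dist p q/(2 (n + 1))` (`0 ≤ r_n < 1`, `1 - r_n ≤ dist p q`), `g n` from `UC` with `‖act (g n) (r_n p)‖ ≤ ρ`.  `tcp_low` with `z = r_n p`, `x = p`, `y = q`: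
`‖1 - conj z p‖ = 1 - r_n`, `‖1 - conj z q‖ ≤ (1 - r_n) + dist p q ≤ 2 dist p q`, `1 - ‖z‖² = (1 - r_n)(1 + r_n) ≥ 1 - r_n`: so
`dist (g p) (g q) ≥ (1-ρ²)/4 * (1-r_n) dist p q/((1-r_n) 2 dist p q) = (1-ρ²)/8`.
Each value `a` is taken finitely often: otherwise `‖act a (r_n p)‖ ≤ ρ` for infinitely many `n`, and `r_n → 1`, so `‖act a p‖ ≤ ρ < 1` by continuity
(`act_cont`), but `‖act a p‖ = 1` (`act_eq`).
`gap_stab`: take `g` from `gap_far` for `p`, `q`.  All pairs `(act (g n) p, act (g n) q)` are in the finite set `gap_finite F hc` (`gap_act`).  By the pigeonhole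
principle some pair is taken for infinitely many `n`; as `g` takes each value finitely often there are `n, m` with the same pair and `g n ≠ g m`.
`z = (g m)⁻¹ * g n ≠ 1` fixes `p` and `q` (`act_mul`, `act_inv_act`).  `exists_AR`: `AR z p' q'`, and `p, q ∈ {p', q'}` (`AR.fixed`), so `AR z p q` or
`AR z q p`, in the second case `AR z⁻¹ p q` (`AR.inv`).  Then `AR.stab`.
-/

namespace TN

open Metric Set Filter Topology DS

variable {Γ : Type} [Group Γ]

private theorem GPE_conj {p : ℂ} (hp : ‖p‖ = 1) : (starRingEnd ℂ) p * p = 1 := by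
  rw [mul_comm, Complex.mul_conj, Complex.normSq_eq_norm_sq, hp]
  norm_num

private theorem GPE_lim {p : ℂ} {r : ℕ → ℝ} (hr : Tendsto r atTop (𝓝 1)) :
    Tendsto (fun n => ((r n : ℝ) : ℂ) * p) atTop (𝓝 p) := by
  have h1 : Tendsto (fun n => ((r n : ℝ) : ℂ)) atTop (𝓝 ((1 : ℝ) : ℂ)) :=
    (Complex.continuous_ofReal.tendsto 1).comp hr
  have h2 := h1.mul_const p
  rwa [Complex.ofReal_one, one_mul] at h2

theorem gap_far (F : Fuchs Γ) (hU : F.UC) : ∃ c : ℝ, 0 < c ∧ ∀ p ∈ F.lim, ∀ q : ℂ, ‖q‖ = 1 →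
    q ≠ p → ∃ g : ℕ → Γ, (∀ a, {n | g n = a}.Finite) ∧
      ∀ n, c ≤ dist (F.act (g n) p) (F.act (g n) q) := by
  obtain ⟨ρ, hρ, hU⟩ := hU
  by_cases hne : F.lim.Nonempty
  swap
  · exact ⟨1, one_pos, fun p hp => absurd ⟨p, hp⟩ hne⟩
  have hρ0 : 0 ≤ ρ := by
    obtain ⟨ξ, hξ⟩ := hne
    obtain ⟨g, hg⟩ := hU ξ hξ 0 le_rfl one_pos
    exact (norm_nonneg _).trans hg
  have hρ2 : 0 < 1 - ρ ^ 2 := by nlinarith
  refine ⟨(1 - ρ ^ 2) / 8, by positivity, fun p hp q hq hqp => ?_⟩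
  have hpn : ‖p‖ = 1 := lim_sphere F hp
  set d : ℝ := dist p q with hd
  have hd0 : 0 < d := dist_pos.2 hqp.symm
  have hd2 : d ≤ 2 := by
    rw [hd, dist_eq_norm]
    have := norm_sub_le p q
    linarith
  set r : ℕ → ℝ := fun n => 1 - d / (2 * (n + 1)) with hr
  have hrn : ∀ n : ℕ, 0 ≤ r n ∧ r n < 1 ∧ 1 - r n ≤ d := by
    intro n
    have hn : (0:ℝ) < 2 * (n + 1) := by positivity
    have hn1 : (1:ℝ) ≤ n + 1 := by
      have : (0:ℝ) ≤ n := Nat.cast_nonneg n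
      linarith
    have h1 : d / (2 * (n + 1)) ≤ 1 := by
      rw [div_le_one hn]
      linarith
    have h2 : 0 < d / (2 * (n + 1)) := div_pos hd0 hn
    have h3 : d / (2 * (n + 1)) ≤ d := div_le_self hd0.le (by linarith)
    refine ⟨?_, ?_, ?_⟩
    · show 0 ≤ 1 - d / (2 * (n + 1))
      linarith
    · show 1 - d / (2 * (n + 1)) < 1
      linarith
    · show 1 - (1 - d / (2 * (n + 1))) ≤ d
      linarith
  have hrlim : Tendsto r atTop (𝓝 1) := by
    have h1 : Tendsto (fun n : ℕ => (d / 2) * (1 / ((n : ℝ) + 1))) atTop (𝓝 (d / 2 * 0)) :=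
      tendsto_one_div_add_atTop_nhds_zero_nat.const_mul _
    have h2 := h1.const_sub 1
    rw [mul_zero, sub_zero] at h2
    refine h2.congr fun n => ?_
    show 1 - d / 2 * (1 / ((n : ℝ) + 1)) = 1 - d / (2 * (n + 1))
    have hn : ((n : ℝ) + 1) ≠ 0 := by positivity
    field_simp
  choose g hg using fun n => hU p hp (r n) (hrn n).1 (hrn n).2.1
  refine ⟨g, fun a => ?_, fun n => ?_⟩
  · have hzc : ∀ n, ((r n : ℝ) : ℂ) * p ∈ closedBall (0:ℂ) 1 := by
      intro n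
      rw [mem_closedBall_zero_iff, norm_mul, hpn, mul_one, Complex.norm_real,
        Real.norm_of_nonneg (hrn n).1]
      exact (hrn n).2.1.le
    have hpc : p ∈ closedBall (0:ℂ) 1 := by simpa using hpn.le
    have h1 : Tendsto (fun n => F.act a (((r n : ℝ) : ℂ) * p)) atTop (𝓝 (F.act a p)) :=
      (act_cont F a p hpc).tendsto.comp
        (tendsto_nhdsWithin_iff.2 ⟨GPE_lim hrlim, Eventually.of_forall hzc⟩)
    have h2 := h1.norm
    rw [act_eq F a hpn] at h2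
    have hev : ∀ᶠ n in atTop, ¬ (g n = a) := by
      filter_upwards [h2.eventually (lt_mem_nhds hρ)] with n hn he
      have h3 := hg n
      rw [he] at h3
      linarith
    rw [← Nat.cofinite_eq_atTop] at hev
    simpa [Filter.eventually_cofinite] using hev
  · obtain ⟨h0, h1, h2⟩ := hrn n
    set z : ℂ := ((r n : ℝ) : ℂ) * p with hz
    have hzn : ‖z‖ = r n := by
      rw [hz, norm_mul, hpn, mul_one, Complex.norm_real, Real.norm_of_nonneg h0]
    have hlow := tcp_low F (g := g n) (z := z) (x := p) (y := q) (ρ := ρ) hρ (by rw [hzn]; exact h1)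
      (hg n) hpn.le hq.le
    have hc1 : (starRingEnd ℂ) z * p = ((r n : ℝ) : ℂ) := by
      rw [hz, map_mul, Complex.conj_ofReal, mul_assoc, GPE_conj hpn, mul_one]
    have e1 : ‖1 - (starRingEnd ℂ) z * p‖ = 1 - r n := by
      rw [hc1]
      have : (1 - ((r n : ℝ) : ℂ)) = ((1 - r n : ℝ) : ℂ) := by push_cast; ring
      rw [this, Complex.norm_real, Real.norm_of_nonneg (by linarith)]
    have e2 : ‖1 - (starRingEnd ℂ) z * q‖ ≤ 2 * d := by
      have h3 : 1 - (starRingEnd ℂ) z * q = (1 - (starRingEnd ℂ) z * p) +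
          (starRingEnd ℂ) z * (p - q) := by ring
      rw [h3]
      refine (norm_add_le _ _).trans ?_
      rw [e1, norm_mul, Complex.norm_conj, hzn, ← dist_eq_norm]
      have h4 : r n * dist p q ≤ d := mul_le_of_le_one_left hd0.le h1.le
      linarith
    rw [e1, hzn] at hlow
    set D : ℝ := dist (F.act (g n) p) (F.act (g n) q) with hD
    have hD0 : 0 ≤ D := dist_nonneg
    have hr0 : 0 < 1 - r n := by linarith
    have h5 : D * ((1 - r n) * ‖1 - (starRingEnd ℂ) z * q‖) ≤ D * ((1 - r n) * (2 * d)) :=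
      mul_le_mul_of_nonneg_left (mul_le_mul_of_nonneg_left e2 hr0.le) hD0
    have h6 : (1 - ρ ^ 2) / 4 * ((1 - r n) * d) ≤ (1 - ρ ^ 2) / 4 * ((1 - r n ^ 2) * d) := by
      apply mul_le_mul_of_nonneg_left _ (by positivity)
      apply mul_le_mul_of_nonneg_right _ hd0.le
      nlinarith
    have h7 : ((1 - ρ ^ 2) / 8) * ((1 - r n) * (2 * d)) ≤ D * ((1 - r n) * (2 * d)) := by
      have h8 : ((1 - ρ ^ 2) / 8) * ((1 - r n) * (2 * d)) = (1 - ρ ^ 2) / 4 * ((1 - r n) * d) := by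
        ring
      rw [h8]
      exact h6.trans (hlow.trans h5)
    exact le_of_mul_le_mul_right h7 (by positivity)

theorem gap_stab (F : Fuchs Γ) (hU : F.UC) {p q : ℂ} (h : IsGap F p q) :
    ∃ κ, F.AR κ p q ∧ ∀ g, F.act g p = p ↔ g ∈ Subgroup.zpowers κ := by
  have hp : ‖p‖ = 1 := lim_sphere F h.mp
  have hq : ‖q‖ = 1 := lim_sphere F h.mq
  obtain ⟨c, hc, H⟩ := gap_far F hU
  obtain ⟨g, hgf, hgd⟩ := H p h.mp q hq h.ne.symm
  have hfin := gap_finite F hc
  set f : ℕ → ℂ × ℂ := fun n => (F.act (g n) p, F.act (g n) q) with hf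
  have hfS : ∀ n, f n ∈ {s : ℂ × ℂ | IsGap F s.1 s.2 ∧ c ≤ dist s.1 s.2} := fun n =>
    ⟨gap_act F (g n) h, hgd n⟩
  obtain ⟨s, hs⟩ : ∃ s, {n | f n = s}.Infinite := by
    by_contra hcon
    push Not at hcon
    have h1 : (⋃ s ∈ {s : ℂ × ℂ | IsGap F s.1 s.2 ∧ c ≤ dist s.1 s.2}, {n | f n = s}).Finite :=
      hfin.biUnion fun s _ => hcon s
    have h2 : (Set.univ : Set ℕ) ⊆
        ⋃ s ∈ {s : ℂ × ℂ | IsGap F s.1 s.2 ∧ c ≤ dist s.1 s.2}, {n | f n = s} := by
      intro n _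
      exact Set.mem_biUnion (hfS n) rfl
    exact Set.infinite_univ (h1.subset h2)
  obtain ⟨n, hn⟩ := hs.nonempty
  obtain ⟨m, hm, hmn⟩ := hs.exists_notMem_finite (hgf (g n))
  have hnm : f n = f m := hn.trans (show f m = s from hm).symm
  have hnm1 : F.act (g n) p = F.act (g m) p := congrArg Prod.fst hnm
  have hnm2 : F.act (g n) q = F.act (g m) q := congrArg Prod.snd hnm
  have hz : (g m)⁻¹ * g n ≠ 1 := by
    intro h1
    apply hmn
    show g m = g n
    exact inv_mul_eq_one.1 h1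
  have hzp : F.act ((g m)⁻¹ * g n) p = p := by
    rw [act_mul F _ _ hp.le, hnm1, act_inv_act F _ hp.le]
  have hzq : F.act ((g m)⁻¹ * g n) q = q := by
    rw [act_mul F _ _ hq.le, hnm2, act_inv_act F _ hq.le]
  obtain ⟨p', q', hAR⟩ := exists_AR F hz
  rcases AR.fixed hAR hp.le hzp with h1 | h1
  · rcases AR.fixed hAR hq.le hzq with h2 | h2
    · exact absurd (h1.trans h2.symm) h.ne
    · rw [← h1, ← h2] at hAR
      exact AR.stab hAR
  · rcases AR.fixed hAR hq.le hzq with h2 | h2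
    · rw [← h1, ← h2] at hAR
      exact AR.stab (AR.inv hAR)
    · exact absurd (h1.trans h2.symm) h.ne

end TN
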