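import Pool.Agent.H57.TG.GPE

/-!
GPR (representatives of the orbits of gaps).  Let `c` be from `gap_far` and `S` the finite set `gap_finite F hc`.  Every gap `(p', q')` has an image in
`S` (`gap_far`, `gap_act`).  On the finite type `S` let `s ~ t` iff some `g` maps `s` to `t` (both coordinates); an equivalence relation (`act_one`, `act_mul`,
`act_inv_act`, all points have norm one).  Let `n` be the number of classes (`Finite (Quotient _)`, `Finite.equivFin`), and
`(p i, q i)` a representative (`Quotient.out`) of the class `i`.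
-/

namespace TN

open Metric Set Filter Topology DS

variable {Γ : Type} [Group Γ]

theorem gap_reps (F : Fuchs Γ) (hU : F.UC) : ∃ (n : ℕ) (p q : Fin n → ℂ),
    (∀ i, IsGap F (p i) (q i)) ∧
    (∀ p' q', IsGap F p' q' → ∃ g i, F.act g p' = p i ∧ F.act g q' = q i) ∧
    ∀ i j g, F.act g (p i) = p j → F.act g (q i) = q j → i = j := by
  classical
  obtain ⟨c, hc, hfar⟩ := gap_far F hU
  set S := {s : ℂ × ℂ | IsGap F s.1 s.2 ∧ c ≤ dist s.1 s.2} with hS
  have hSf : S.Finite := gap_finite F hc
  have hn1 : ∀ s : S, ‖s.1.1‖ ≤ 1 := fun s => (lim_sphere F s.2.1.mp).le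
  have hn2 : ∀ s : S, ‖s.1.2‖ ≤ 1 := fun s => (lim_sphere F s.2.1.mq).le
  let st : Setoid S :=
    { r := fun s t => ∃ g, F.act g s.1.1 = t.1.1 ∧ F.act g s.1.2 = t.1.2
      iseqv :=
        { refl := fun s => ⟨1, act_one F (hn1 s), act_one F (hn2 s)⟩
          symm := by
            rintro s t ⟨g, e1, e2⟩
            exact ⟨g⁻¹, by rw [← e1, act_inv_act F g (hn1 s)], by
              rw [← e2, act_inv_act F g (hn2 s)]⟩
          trans := by
            rintro s t v ⟨g, e1, e2⟩ ⟨g', e3, e4⟩
            exact ⟨g' * g, by rw [act_mul F g' g (hn1 s), e1, e3], by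
              rw [act_mul F g' g (hn2 s), e2, e4]⟩ } }
  have : Finite S := hSf
  have : Finite (Quotient st) := Quotient.finite st
  obtain ⟨n, ⟨e⟩⟩ := Finite.exists_equiv_fin (Quotient st)
  refine ⟨n, fun i => (Quotient.out (e.symm i)).1.1, fun i => (Quotient.out (e.symm i)).1.2,
    fun i => (Quotient.out (e.symm i)).2.1, ?_, ?_⟩
  · intro p' q' h
    obtain ⟨g, -, hg⟩ := hfar p' h.mp q' (lim_sphere F h.mq) h.ne.symm
    have hmem : (F.act (g 0) p', F.act (g 0) q') ∈ S := ⟨gap_act F (g 0) h, hg 0⟩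
    set s : S := ⟨_, hmem⟩ with hs
    have h1 : st.r s (Quotient.out (Quotient.mk st s)) := by
      have h2 : Quotient.mk st (Quotient.out (Quotient.mk st s)) = Quotient.mk st s :=
        Quotient.out_eq _
      exact st.symm (Quotient.exact h2)
    obtain ⟨a, e1, e2⟩ := h1
    have hp' : ‖p'‖ ≤ 1 := (lim_sphere F h.mp).le
    have hq' : ‖q'‖ ≤ 1 := (lim_sphere F h.mq).le
    refine ⟨a * g 0, e (Quotient.mk st s), ?_, ?_⟩
    · beta_reduce
      rw [Equiv.symm_apply_apply, act_mul F a (g 0) hp']
      exact e1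
    · beta_reduce
      rw [Equiv.symm_apply_apply, act_mul F a (g 0) hq']
      exact e2
  · intro i j g e1 e2
    have h1 : Quotient.mk st (Quotient.out (e.symm i)) = Quotient.mk st (Quotient.out (e.symm j)) :=
      Quotient.sound ⟨g, e1, e2⟩
    rw [Quotient.out_eq, Quotient.out_eq] at h1
    exact e.symm.injective h1

end TN
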