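import Pool.Agent.H57.TG.TGDefs
import Pool.Agent.H12.TN.DI

/-!
TCP (distortion of a group element at a point that it maps to a compact part of the disc; cocompactness on triples).

`tcp_low`.  Put `b = F.b g`, so `act g b = 0` and `pd b z = pd 0 (act g z) = ‖act g z‖ ≤ ρ` (or: `act_norm` at `z` directly,
`1 - ‖act g z‖² = (1-‖b‖²)(1-‖z‖²)/‖1 - conj b z‖²`, so
(1) `(1-ρ²) ‖1 - conj b z‖² ≤ (1-‖b‖²)(1-‖z‖²)`.)
(2) for `‖x‖ ≤ 1`: `‖1 - conj b x‖ (1-‖z‖²) ≤ 2 ‖1 - conj z b‖ ‖1 - conj z x‖`: this is `DI_one_sub` for `mob 1 z` and the points `b`, `x`: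
`‖1 - conj (M b) (M x)‖ ‖1 - conj z b‖ ‖1 - conj z x‖ = (1-‖z‖²) ‖1 - conj b x‖` with `‖1 - conj (M b) (M x)‖ ≤ 2`.
From (1), (2) (`‖1 - conj z b‖ = ‖1 - conj b z‖`): `(1-ρ²)(1-‖z‖²) ‖1 - conj b x‖ ‖1 - conj b y‖ ≤ 4 (1-‖b‖²) ‖1 - conj z x‖ ‖1 - conj z y‖`.
With `act_dist`: `dist (act g x) (act g y) ‖1 - conj b x‖ ‖1 - conj b y‖ = (1-‖b‖²) dist x y`; divide.

`tc_of_uc`.  Let `ρ` be from `UC` (then `0 ≤ ρ` if `lim` is nonempty).  Let `a, b, c ∈ lim` be distinct; the conclusion is symmetric in the three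
points (`dist_comm`), so assume that `δ = dist a b` is the smallest of the three distances; `δ ≤ 2`.  (Prove first the version with the
hypotheses `dist a b ≤ dist a c`, `dist a b ≤ dist b c`.)  Put `r = 1 - δ/2 ∈ [0,1)`, `z = r a`, `g` from `UC` with
`‖act g z‖ ≤ ρ`.  `‖1 - conj z a‖ = 1 - r = δ/2`, `‖1 - conj z b‖ ≤ (1-r) + r dist a b ≤ 3δ/2`, `‖1 - conj z c‖ ≤ δ/2 + dist a c`,
`1 - ‖z‖² ≥ 1 - r = δ/2`.  `tcp_low` gives with `K = (1-ρ²)/4`:
`dist (ga) (gb) ≥ K (δ/2) δ/((δ/2)(3δ/2)) = 2K/3`, `dist (ga) (gc) ≥ K (δ/2) dist a c/((δ/2)(δ/2 + dist a c)) ≥ 2K/3`,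
`dist (gb) (gc) ≥ K (δ/2) dist b c/((3δ/2)(δ/2 + dist a c)) ≥ 2K/15` (as `dist a c ≤ dist a b + dist b c ≤ 2 dist b c`).
So `ε = (1-ρ²)/30` works (if `lim` is empty any `ε` works).
-/

namespace TN

open Metric Set Filter Topology DS

variable {Γ : Type} [Group Γ]

theorem tcp_low (F : Fuchs Γ) {g : Γ} {z x y : ℂ} {ρ : ℝ} (hρ : ρ < 1) (hz : ‖z‖ < 1)
    (hg : ‖F.act g z‖ ≤ ρ) (hx : ‖x‖ ≤ 1) (hy : ‖y‖ ≤ 1) :
    (1 - ρ ^ 2) / 4 * ((1 - ‖z‖ ^ 2) * dist x y) ≤ dist (F.act g x) (F.act g y) *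
      (‖1 - (starRingEnd ℂ) z * x‖ * ‖1 - (starRingEnd ℂ) z * y‖) := by
  have hρ0 : 0 ≤ ρ := (norm_nonneg _).trans hg
  have hρ2 : 0 < 1 - ρ ^ 2 := by nlinarith
  have hS : 0 < 1 - ‖z‖ ^ 2 := by
    have := pow_lt_one₀ (norm_nonneg z) hz two_ne_zero
    linarith
  have hβ : 0 < 1 - ‖F.b g‖ ^ 2 := by
    have := pow_lt_one₀ (norm_nonneg _) (F.hb g) two_ne_zero
    linarith
  have hbz : ‖1 - (starRingEnd ℂ) z * F.b g‖ = ‖1 - (starRingEnd ℂ) (F.b g) * z‖ := by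
    rw [← Complex.norm_conj]
    congr 1
    simp only [map_sub, map_mul, map_one, Complex.conj_conj]
    ring
  -- (1)
  have h1 : (1 - ρ ^ 2) * ‖1 - (starRingEnd ℂ) (F.b g) * z‖ ^ 2
      ≤ (1 - ‖F.b g‖ ^ 2) * (1 - ‖z‖ ^ 2) := by
    have hD : 0 < ‖1 - (starRingEnd ℂ) (F.b g) * z‖ ^ 2 := by
      have := norm_pos_iff.2 (den_ne (F.hb g) hz.le)
      positivity
    have e := act_norm F g hz.le
    have h2 : 1 - ρ ^ 2 ≤ 1 - ‖F.act g z‖ ^ 2 := by
      have := pow_le_pow_left₀ (norm_nonneg _) hg 2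
      linarith
    rw [e, le_div_iff₀ hD] at h2
    exact h2
  -- (2)
  have h2 : ∀ w : ℂ, ‖w‖ ≤ 1 → (1 - ‖z‖ ^ 2) * ‖1 - (starRingEnd ℂ) (F.b g) * w‖
      ≤ 2 * (‖1 - (starRingEnd ℂ) (F.b g) * z‖ * ‖1 - (starRingEnd ℂ) z * w‖) := by
    intro w hw
    have e := DI_one_sub (u := 1) (b := z) (x := F.b g) (y := w) norm_one hz (F.hb g).le hw
    rw [← e, hbz]
    have hM : ‖1 - (starRingEnd ℂ) (mob 1 z (F.b g)) * mob 1 z w‖ ≤ 2 := by
      have m1 : ‖mob 1 z (F.b g)‖ ≤ 1 := mob_closedBall norm_one hz (F.hb g).le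
      have m2 : ‖mob 1 z w‖ ≤ 1 := mob_closedBall norm_one hz hw
      calc ‖1 - (starRingEnd ℂ) (mob 1 z (F.b g)) * mob 1 z w‖
          ≤ ‖(1 : ℂ)‖ + ‖(starRingEnd ℂ) (mob 1 z (F.b g)) * mob 1 z w‖ := norm_sub_le _ _
        _ ≤ 1 + 1 * 1 := by
            rw [norm_one, norm_mul, Complex.norm_conj]
            have := mul_le_mul m1 m2 (norm_nonneg _) zero_le_one
            linarith
        _ = 2 := by norm_num
    exact mul_le_mul_of_nonneg_right hM (mul_nonneg (norm_nonneg _) (norm_nonneg _))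
  have hx2 := h2 x hx
  have hy2 := h2 y hy
  rw [act_dist F g hx hy]
  have hbx : 0 < ‖1 - (starRingEnd ℂ) (F.b g) * x‖ := norm_pos_iff.2 (den_ne (F.hb g) hx)
  have hby : 0 < ‖1 - (starRingEnd ℂ) (F.b g) * y‖ := norm_pos_iff.2 (den_ne (F.hb g) hy)
  set S := 1 - ‖z‖ ^ 2 with hSd
  set β := 1 - ‖F.b g‖ ^ 2 with hβd
  set Bx := ‖1 - (starRingEnd ℂ) (F.b g) * x‖ with hBx
  set By := ‖1 - (starRingEnd ℂ) (F.b g) * y‖ with hBy
  set Bz := ‖1 - (starRingEnd ℂ) (F.b g) * z‖ with hBz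
  set Zx := ‖1 - (starRingEnd ℂ) z * x‖ with hZx
  set Zy := ‖1 - (starRingEnd ℂ) z * y‖ with hZy
  have hBz0 : 0 ≤ Bz := norm_nonneg _
  have hZx0 : 0 ≤ Zx := norm_nonneg _
  have hZy0 : 0 ≤ Zy := norm_nonneg _
  have hd : 0 ≤ dist x y := dist_nonneg
  have h3 : (S * Bx) * (S * By) ≤ (2 * (Bz * Zx)) * (2 * (Bz * Zy)) :=
    mul_le_mul hx2 hy2 (by positivity) (by positivity)
  have h4 : S * ((1 - ρ ^ 2) / 4 * (S * dist x y) * (Bx * By))
      ≤ S * (β * dist x y * (Zx * Zy)) := by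
    calc S * ((1 - ρ ^ 2) / 4 * (S * dist x y) * (Bx * By))
        = ((1 - ρ ^ 2) / 4 * dist x y) * ((S * Bx) * (S * By)) := by ring
      _ ≤ ((1 - ρ ^ 2) / 4 * dist x y) * ((2 * (Bz * Zx)) * (2 * (Bz * Zy))) :=
          mul_le_mul_of_nonneg_left h3 (by positivity)
      _ = ((1 - ρ ^ 2) * Bz ^ 2) * (dist x y * (Zx * Zy)) := by ring
      _ ≤ (β * S) * (dist x y * (Zx * Zy)) := mul_le_mul_of_nonneg_right h1 (by positivity)
      _ = S * (β * dist x y * (Zx * Zy)) := by ring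
  have h5 := le_of_mul_le_mul_left h4 hS
  have e : β * dist x y / (Bx * By) * (Zx * Zy) = β * dist x y * (Zx * Zy) / (Bx * By) := by ring
  rw [e, le_div_iff₀ (by positivity)]
  exact h5

/-- the case where `dist a b` is the smallest distance -/
theorem TCP_main (F : Fuchs Γ) {ρ : ℝ} (hρ : ρ < 1) (hρ0 : 0 ≤ ρ)
    (hU : ∀ ξ ∈ F.lim, ∀ r : ℝ, 0 ≤ r → r < 1 → ∃ g, ‖F.act g (r * ξ)‖ ≤ ρ) {a b c : ℂ}
    (ha : a ∈ F.lim) (hb : b ∈ F.lim) (hc : c ∈ F.lim) (hab : a ≠ b) (h1 : dist a b ≤ dist a c)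
    (h2 : dist a b ≤ dist b c) :
    ∃ g, (1 - ρ ^ 2) / 36 ≤ dist (F.act g a) (F.act g b) ∧
      (1 - ρ ^ 2) / 36 ≤ dist (F.act g b) (F.act g c) ∧
      (1 - ρ ^ 2) / 36 ≤ dist (F.act g a) (F.act g c) := by
  have na := lim_sphere F ha
  have nb := lim_sphere F hb
  have nc := lim_sphere F hc
  set δ := dist a b with hδ
  have hδ0 : 0 < δ := dist_pos.2 hab
  have hδ2 : δ ≤ 2 := by
    rw [hδ, dist_eq_norm]
    have := norm_sub_le a b
    linarith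
  set r : ℝ := 1 - δ / 2 with hr
  have hr0 : 0 ≤ r := by rw [hr]; linarith
  have hr1 : r < 1 := by rw [hr]; linarith
  obtain ⟨g, hg⟩ := hU a ha r hr0 hr1
  set z : ℂ := (r : ℂ) * a with hz
  have nz : ‖z‖ = r := by
    rw [hz, norm_mul, na, mul_one, Complex.norm_real, Real.norm_of_nonneg hr0]
  have haa : (starRingEnd ℂ) a * a = 1 := by
    rw [mul_comm, Complex.mul_conj, Complex.normSq_eq_norm_sq, na]; norm_num
  have hD : ∀ x : ℂ, ‖1 - (starRingEnd ℂ) z * x‖ ≤ δ / 2 + dist a x := by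
    intro x
    have e : 1 - (starRingEnd ℂ) z * x
        = ((1 - r : ℝ) : ℂ) + (r : ℂ) * ((starRingEnd ℂ) a * (a - x)) := by
      rw [hz, map_mul, Complex.conj_ofReal, mul_sub, haa]
      push_cast
      ring
    rw [e]
    refine (norm_add_le _ _).trans ?_
    rw [Complex.norm_real, Real.norm_of_nonneg (by linarith), norm_mul, norm_mul,
      Complex.norm_conj, na, one_mul, Complex.norm_real, Real.norm_of_nonneg hr0, dist_eq_norm]
    have h3 : r * ‖a - x‖ ≤ ‖a - x‖ := mul_le_of_le_one_left (norm_nonneg _) hr1.le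
    have h4 : 1 - r = δ / 2 := by rw [hr]; ring
    linarith
  have hDa : ‖1 - (starRingEnd ℂ) z * a‖ ≤ δ / 2 := by
    have := hD a
    rwa [dist_self, add_zero] at this
  have hDb : ‖1 - (starRingEnd ℂ) z * b‖ ≤ 3 / 2 * δ := by
    have := hD b
    linarith
  have hDc := hD c
  have hS : δ / 2 ≤ 1 - ‖z‖ ^ 2 := by
    rw [nz]
    have e : 1 - r ^ 2 = (1 - r) * (1 + r) := by ring
    have h4 : 1 - r = δ / 2 := by rw [hr]; ring
    rw [e, h4]
    have : δ / 2 * 1 ≤ δ / 2 * (1 + r) := mul_le_mul_of_nonneg_left (by linarith) (by linarith)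
    linarith
  have hz1 : ‖z‖ < 1 := by rw [nz]; exact hr1
  have hK : 0 < 1 - ρ ^ 2 := by nlinarith
  have hac : 0 < dist a c := lt_of_lt_of_le hδ0 h1
  have hbc : 0 < dist b c := lt_of_lt_of_le hδ0 h2
  -- general step
  have step : ∀ (x y : ℂ) (X Y : ℝ), ‖x‖ ≤ 1 → ‖y‖ ≤ 1 → ‖1 - (starRingEnd ℂ) z * x‖ ≤ X →
      ‖1 - (starRingEnd ℂ) z * y‖ ≤ Y → 0 ≤ X → 0 < dist x y →
      X * Y ≤ 9 / 2 * (δ * dist x y) →
      (1 - ρ ^ 2) / 36 ≤ dist (F.act g x) (F.act g y) := by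
    intro x y X Y nx ny hX hY hX0 hd hXY
    have h3 := tcp_low F hρ hz1 hg nx ny
    have h4 : dist (F.act g x) (F.act g y) *
        (‖1 - (starRingEnd ℂ) z * x‖ * ‖1 - (starRingEnd ℂ) z * y‖)
        ≤ dist (F.act g x) (F.act g y) * (X * Y) :=
      mul_le_mul_of_nonneg_left (mul_le_mul hX hY (norm_nonneg _) hX0) dist_nonneg
    have h5 : dist (F.act g x) (F.act g y) * (X * Y)
        ≤ dist (F.act g x) (F.act g y) * (9 / 2 * (δ * dist x y)) :=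
      mul_le_mul_of_nonneg_left hXY dist_nonneg
    have h6 : (1 - ρ ^ 2) / 4 * (δ / 2 * dist x y)
        ≤ (1 - ρ ^ 2) / 4 * ((1 - ‖z‖ ^ 2) * dist x y) := by
      apply mul_le_mul_of_nonneg_left _ (by positivity)
      exact mul_le_mul_of_nonneg_right hS hd.le
    have h7 : (δ * dist x y) * ((1 - ρ ^ 2) / 36)
        ≤ (δ * dist x y) * dist (F.act g x) (F.act g y) := by
      have h8 : (1 - ρ ^ 2) / 4 * (δ / 2 * dist x y)
          = 9 / 2 * ((δ * dist x y) * ((1 - ρ ^ 2) / 36)) := by ring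
      have h9 : dist (F.act g x) (F.act g y) * (9 / 2 * (δ * dist x y))
          = 9 / 2 * ((δ * dist x y) * dist (F.act g x) (F.act g y)) := by ring
      linarith
    exact le_of_mul_le_mul_left h7 (by positivity)
  refine ⟨g, ?_, ?_, ?_⟩
  · apply step a b (δ / 2) (3 / 2 * δ) na.le nb.le hDa hDb (by positivity) hδ0
    rw [← hδ]
    nlinarith
  · apply step b c (3 / 2 * δ) (δ / 2 + dist a c) nb.le nc.le hDb hDc (by positivity) hbc
    have h3 : dist a c ≤ δ + dist b c := dist_triangle a b c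
    have h4 : δ / 2 + dist a c ≤ 3 * dist b c := by linarith
    have h5 : 3 / 2 * δ * (δ / 2 + dist a c) ≤ 3 / 2 * δ * (3 * dist b c) :=
      mul_le_mul_of_nonneg_left h4 (by positivity)
    linarith
  · apply step a c (δ / 2) (δ / 2 + dist a c) na.le nc.le hDa hDc (by positivity) hac
    have h5 : δ / 2 * (δ / 2 + dist a c) ≤ δ / 2 * (3 / 2 * dist a c) :=
      mul_le_mul_of_nonneg_left (by linarith) (by positivity)
    have h6 : 0 ≤ δ * dist a c := by positivity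
    linarith

theorem tc_of_uc (F : Fuchs Γ) (hU : F.UC) : F.TC := by
  obtain ⟨ρ, hρ, hU⟩ := hU
  by_cases hne : F.lim.Nonempty
  · obtain ⟨ξ, hξ⟩ := hne
    obtain ⟨g0, hg0⟩ := hU ξ hξ 0 le_rfl one_pos
    have hρ0 : 0 ≤ ρ := (norm_nonneg _).trans hg0
    refine ⟨(1 - ρ ^ 2) / 36, by nlinarith, ?_⟩
    intro a ha b hb c hc hab hbc hac
    rcases le_total (dist a b) (dist a c) with h1 | h1
    · rcases le_total (dist a b) (dist b c) with h2 | h2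
      · exact TCP_main F hρ hρ0 hU ha hb hc hab h1 h2
      · obtain ⟨g, g1, g2, g3⟩ := TCP_main F hρ hρ0 hU hb hc ha hbc
          (by rw [dist_comm b a]; exact h2) (by rw [dist_comm c a]; exact h2.trans h1)
        refine ⟨g, ?_, g1, ?_⟩
        · rw [dist_comm]; exact g3
        · rw [dist_comm]; exact g2
    · rcases le_total (dist a c) (dist b c) with h2 | h2
      · obtain ⟨g, g1, g2, g3⟩ := TCP_main F hρ hρ0 hU ha hc hb hac h1
          (by rw [dist_comm c b]; exact h2)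
        refine ⟨g, g3, ?_, g1⟩
        rw [dist_comm]; exact g2
      · obtain ⟨g, g1, g2, g3⟩ := TCP_main F hρ hρ0 hU hb hc ha hbc
          (by rw [dist_comm b a]; exact h2.trans h1) (by rw [dist_comm c a]; exact h2)
        refine ⟨g, ?_, g1, ?_⟩
        · rw [dist_comm]; exact g3
        · rw [dist_comm]; exact g2
  · refine ⟨1, one_pos, fun a ha => ?_⟩
    exact absurd ⟨a, ha⟩ hne

end TN
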