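import Pool.Agent.H12.TN.FD
import Pool.Agent.H12.TN.CO

/-!
Project MP_8a27c0_TN, block B1 (helper57): gaps of the limit set (section 3.5 of the note).  Definitions.
For `p ≠ q` on the unit circle the function `eta p q` is real on the circle minus `p` and positive exactly on the open arc
that starts at `q` and ends at `p` in the counterclockwise direction.
-/

namespace TN

open Metric Set Filter Topology DS

/-- the open arc of the circle where `eta p q` is positive (counterclockwise from `q` to `p`) -/
def Arc (p q : ℂ) : Set ℂ := {ξ | ‖ξ‖ = 1 ∧ 0 < (eta p q ξ).re}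

variable {Γ : Type} [Group Γ]

/-- `Arc p q` is a component of the complement of the limit set in the circle -/
structure IsGap (F : Fuchs Γ) (p q : ℂ) : Prop where
  mp : p ∈ F.lim
  mq : q ∈ F.lim
  ne : p ≠ q
  gap : ∀ ξ ∈ Arc p q, ξ ∉ F.lim

/-- a real coordinate on the circle minus the point `ξ`, increasing counterclockwise
(`- cot (θ / 2)` for `x = ξ exp (i θ)`) -/
noncomputable def tco (ξ x : ℂ) : ℝ := (Complex.I * (ξ + x) / (ξ - x)).re

theorem Arc.ne {p q ξ : ℂ} (h : ξ ∈ Arc p q) : ξ ≠ p := by
  rintro rfl
  have := h.2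
  simp [eta] at this

theorem Arc.ne' {p q ξ : ℂ} (h : ξ ∈ Arc p q) : ξ ≠ q := by
  rintro rfl
  have := h.2
  simp [eta] at this

end TN
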